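import Pool.Agent.Helper8.KT.Sheet3
import Pool.Agent.Helper8.SE.HR

/-! Row BM (MP_3a8adc_an): norms which are limits of `C^k` norms. -/

open scoped ContDiff NNReal
open Set Filter Topology

namespace Pool.Agent.Helper6.KT

open Pool.Agent.Helper8.SE

/-- the derivative of the smooth approximation of `t` -/
noncomputable def st (δ : ℝ) (s : ℝ) : ℝ := Real.smoothTransition (2 / δ * s - 1)

/-- a smooth approximation of `t` which vanishes near `0` -/
noncomputable def ph (δ : ℝ) (t : ℝ) : ℝ := ∫ s in (0:ℝ)..t, st δ s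

theorem st_smooth (δ : ℝ) : ContDiff ℝ ∞ (st δ) :=
  Real.smoothTransition.contDiff.comp ((contDiff_const.mul contDiff_id).sub contDiff_const)

theorem st_nonneg (δ s : ℝ) : 0 ≤ st δ s := Real.smoothTransition.nonneg _

theorem st_le (δ s : ℝ) : st δ s ≤ 1 := Real.smoothTransition.le_one _

theorem st_zero {δ s : ℝ} (hδ : 0 < δ) (h : s ≤ δ / 2) : st δ s = 0 := by
  refine Real.smoothTransition.zero_of_nonpos ?_
  have : 2 / δ * s ≤ 2 / δ * (δ / 2) := by gcongr
  have h2 : 2 / δ * (δ / 2) = 1 := by field_simp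
  linarith

theorem st_one {δ s : ℝ} (hδ : 0 < δ) (h : δ ≤ s) : st δ s = 1 := by
  refine Real.smoothTransition.one_of_one_le ?_
  have : 2 / δ * δ ≤ 2 / δ * s := by gcongr
  have h2 : 2 / δ * δ = 2 := by field_simp
  linarith

theorem ph_deriv (δ t : ℝ) : HasDerivAt (ph δ) (st δ t) t :=
  intervalIntegral.integral_hasDerivAt_right ((st_smooth δ).continuous.intervalIntegrable _ _)
    ((st_smooth δ).continuous.stronglyMeasurableAtFilter _ _) (st_smooth δ).continuous.continuousAt

theorem ph_smooth (δ : ℝ) : ContDiff ℝ ∞ (ph δ) := by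
  rw [contDiff_infty_iff_deriv]
  refine ⟨fun t => (ph_deriv δ t).differentiableAt, ?_⟩
  have h : deriv (ph δ) = st δ := funext fun t => (ph_deriv δ t).deriv
  rw [h]
  exact st_smooth δ

theorem ph_lip (δ s t : ℝ) : |ph δ s - ph δ t| ≤ |s - t| := by
  have h := Convex.norm_image_sub_le_of_norm_hasDerivWithin_le (f := ph δ) (f' := st δ) (C := 1)
    (s := Set.univ) (x := t) (y := s) (fun x _ => (ph_deriv δ x).hasDerivWithinAt)
    (fun x _ => by rw [Real.norm_of_nonneg (st_nonneg δ x)]; exact st_le δ x) convex_univ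
    (Set.mem_univ _) (Set.mem_univ _)
  rw [one_mul] at h
  exact h

theorem ph_zero {δ t : ℝ} (hδ : 0 < δ) (h : t ≤ δ / 2) : ph δ t = 0 := by
  unfold ph
  have h1 : ∫ s in (0:ℝ)..t, st δ s = ∫ s in (0:ℝ)..t, (0:ℝ) := by
    refine intervalIntegral.integral_congr fun s hs => ?_
    refine st_zero hδ ?_
    rcases Set.mem_uIcc.1 hs with h2 | h2
    · exact h2.2.trans h
    · exact h2.2.trans (by positivity)
  rw [h1]
  simp

theorem ph_near {δ t : ℝ} (hδ : 0 < δ) (ht : 0 ≤ t) : |ph δ t - t| ≤ δ := by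
  have h0 : ph δ 0 = 0 := ph_zero hδ (by positivity)
  have h1 := ph_lip δ t 0
  rw [h0, sub_zero, sub_zero, abs_of_nonneg ht] at h1
  have h2 := (le_abs_self _).trans h1
  have hp : 0 ≤ ph δ t := intervalIntegral.integral_nonneg ht fun s _ => st_nonneg δ s
  have h3 : t - δ ≤ ph δ t := by
    rcases le_total t δ with h | h
    · linarith
    · have hi : ∀ a b : ℝ, IntervalIntegrable (st δ) MeasureTheory.volume a b := fun a b =>
        (st_smooth δ).continuous.intervalIntegrable _ _
      have h4 : ph δ t = (∫ s in (0:ℝ)..δ, st δ s) + ∫ s in δ..t, st δ s :=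
        (intervalIntegral.integral_add_adjacent_intervals (hi _ _) (hi _ _)).symm
      have h5 : ∫ s in δ..t, st δ s = t - δ := by
        have h6 : ∫ s in δ..t, st δ s = ∫ s in δ..t, (1:ℝ) := by
          refine intervalIntegral.integral_congr fun s hs => ?_
          rw [Set.uIcc_of_le h] at hs
          exact st_one hδ hs.1
        rw [h6]
        simp
      have h7 : 0 ≤ ∫ s in (0:ℝ)..δ, st δ s :=
        intervalIntegral.integral_nonneg hδ.le fun s _ => st_nonneg δ s
      linarith
  rw [abs_le]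
  constructor <;> linarith

end Pool.Agent.Helper6.KT

namespace Pool.Agent.Helper8.KT

open Pool.Agent.Helper8.SE Pool.Agent.Helper6.KT

theorem stBM.{u} (hF : ST_FIN.{u}) : ST_BM.{u} := by
  intro Z _ _ _ k hk hN A hA f L hf ε hε
  have hA' : (1:ℝ) < A := by exact_mod_cast hA
  obtain ⟨N, hN1, hN2, hN3⟩ := hN ((A:ℝ) - 1) (by linarith)
  have hN2' : ∀ x, ‖x‖ ≤ (A:ℝ) * N x := fun x => by
    have := hN2 x
    rwa [add_sub_cancel] at this
  let i1 : NormedAddCommGroup (VQ N) := NormedAddCommGroup.ofCore (VQ_core N A hN2')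
  let i2 : NormedSpace ℝ (VQ N) := NormedSpace.ofCore (VQ_core N A hN2')
  have hn : ∀ v : VQ N, ‖v‖ = N (v : Z) := fun v => rfl
  let e : VQ N ≃ₗ[ℝ] Z := LinearEquiv.refl ℝ Z
  have he : Continuous e := by
    refine AddMonoidHomClass.continuous_of_bound e (A:ℝ) fun v => ?_
    exact hN2' v
  have he' : Continuous e.symm := by
    refine AddMonoidHomClass.continuous_of_bound e.symm 1 fun v => ?_
    rw [one_mul]
    exact hN1 v
  let T : VQ N ≃L[ℝ] Z := { e with continuous_toFun := he, continuous_invFun := he' }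
  have hT : ∀ v : VQ N, N (T v) = ‖v‖ := fun v => rfl
  have hsep : TopologicalSpace.SeparableSpace (VQ N) :=
    T.symm.surjective.denseRange.separableSpace T.symm.continuous
  have happ : NormApp k (VQ N) ((1 : ℝ≥0) : ℝ) := by
    intro δ hδ
    refine ⟨fun x => ph δ (N (T x)), ?_, fun x y => ?_, fun x => ?_⟩
    · rw [contDiff_iff_contDiffAt]
      intro x
      by_cases hx : x = 0
      · have h1 : (fun x : VQ N => ph δ (N (T x))) =ᶠ[𝓝 x] fun _ => 0 := by
          rw [hx]
          filter_upwards [Metric.ball_mem_nhds (0 : VQ N) (half_pos hδ)] with y hy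
          refine ph_zero hδ ?_
          rw [hT]
          have : ‖y‖ < δ / 2 := by simpa using hy
          exact this.le
        exact contDiffAt_const.congr_of_eventuallyEq h1
      · have hx' : T x ≠ 0 := fun h => hx (T.injective (by rw [h, map_zero]))
        have h2 : ContDiffAt ℝ k N (T x) :=
          (hN3 (T x) hx').contDiffAt (isOpen_compl_singleton.mem_nhds hx')
        have h3 : ContDiffAt ℝ k (fun x : VQ N => N (T x)) x :=
          h2.comp x T.contDiff.contDiffAt
        exact ((ph_smooth δ).of_le hk).contDiffAt.comp x h3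
    · rw [NNReal.coe_one, one_mul]
      change |ph δ (N (T x)) - ph δ (N (T y))| ≤ ‖x - y‖
      rw [hT, hT]
      exact (ph_lip δ _ _).trans (abs_norm_sub_norm_le x y)
    · change |ph δ (N (T x)) - ‖x‖| ≤ δ
      rw [hT]
      exact ph_near hδ (norm_nonneg x)
  have hfl : LipschitzWith (A * L) (fun v : VQ N => f (T v)) :=
    LipschitzWith.of_dist_le_mul fun x y => by
      refine (hf.dist_le_mul (T x) (T y)).trans ?_
      rw [dist_eq_norm, dist_eq_norm, ← map_sub, NNReal.coe_mul, ← hT (x - y)]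
      calc (L : ℝ) * ‖T (x - y)‖ ≤ (L : ℝ) * ((A : ℝ) * N (T (x - y))) := by
            gcongr
            exact hN2' _
        _ = (A : ℝ) * L * N (T (x - y)) := by ring
  obtain ⟨K, hK1, hK2, hK3⟩ := star_of_normApp hF (VQ N) k hk 1 happ (fun v => f (T v)) (A * L)
    hfl ε hε
  refine ⟨fun v => K (T.symm v), hK1.comp T.symm.contDiff, ?_, fun x => ?_⟩
  · refine LipschitzWith.of_dist_le_mul fun x y => ?_
    refine (hK2.dist_le_mul (T.symm x) (T.symm y)).trans ?_
    rw [one_mul, dist_eq_norm, dist_eq_norm, ← map_sub]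
    gcongr
    rw [← hT, ContinuousLinearEquiv.apply_symm_apply]
    exact hN1 _
  · have h := hK3 (T.symm x)
    simpa using h

end Pool.Agent.Helper8.KT
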